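import Pool.Agent.W297.LP.Stm

/-!
Project LP (helper297), problem MP_6505eb_co, frozen statement S09215: part PART (helper604).
-/

set_option autoImplicit false

open Finset

namespace Pool.Agent.W604.LP

open Pool.Agent.W297.LP

variable {V : Type} [Fintype V]

set_option linter.unusedSectionVars false

/-- tree density with all points except the root averaged over `D` -/
noncomputable def sd (W : V → V → ℝ) (D : Finset V) : Tr → V → ℝ
  | .pt, _ => 1
  | .br A B, x => sd W D A x * ((∑ y ∈ D, W x y * sd W D B y) / (D.card : ℝ))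

lemma ker_nonneg {W : V → V → ℝ} (hW : Ker W) (x y : V) : 0 ≤ W x y := by
  rcases hW.zo x y with h | h <;> rw [h] <;> norm_num

lemma ker_le_one {W : V → V → ℝ} (hW : Ker W) (x y : V) : W x y ≤ 1 := by
  rcases hW.zo x y with h | h <;> rw [h] <;> norm_num

lemma td_nonneg {W : V → V → ℝ} (hW : Ker W) (T : Tr) : ∀ x, 0 ≤ td W T x := by
  induction T with
  | pt => intro x; simp [td]
  | br A B hA hB =>
    intro x
    simp only [td]
    exact mul_nonneg (hA x) (div_nonneg (sum_nonneg fun y _ => mul_nonneg (ker_nonneg hW x y) (hB y))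
      (Nat.cast_nonneg _))

lemma sd_nonneg {W : V → V → ℝ} (hW : Ker W) (D : Finset V) (T : Tr) : ∀ x, 0 ≤ sd W D T x := by
  induction T with
  | pt => intro x; simp [sd]
  | br A B hA hB =>
    intro x
    simp only [sd]
    exact mul_nonneg (hA x) (div_nonneg (sum_nonneg fun y _ => mul_nonneg (ker_nonneg hW x y) (hB y))
      (Nat.cast_nonneg _))

lemma mean_le_one {W : V → V → ℝ} (hW : Ker W) (D : Finset V) (f : V → ℝ)
    (hf0 : ∀ y, 0 ≤ f y) (hf : ∀ y, f y ≤ 1) (x : V) :
    (∑ y ∈ D, W x y * f y) / (D.card : ℝ) ≤ 1 := by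
  apply div_le_one_of_le₀ _ (Nat.cast_nonneg _)
  calc ∑ y ∈ D, W x y * f y ≤ ∑ y ∈ D, (1 : ℝ) := by
        apply sum_le_sum
        intro y _
        exact mul_le_one₀ (ker_le_one hW x y) (hf0 y) (hf y)
    _ = (D.card : ℝ) := by simp

lemma sd_le_one {W : V → V → ℝ} (hW : Ker W) (D : Finset V) (T : Tr) : ∀ x, sd W D T x ≤ 1 := by
  induction T with
  | pt => intro x; simp [sd]
  | br A B hA hB =>
    intro x
    simp only [sd]
    refine mul_le_one₀ (hA x) ?_ ?_
    · exact div_nonneg (sum_nonneg fun y _ => mul_nonneg (ker_nonneg hW x y) (sd_nonneg hW D B y))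
        (Nat.cast_nonneg _)
    · exact mean_le_one hW D _ (sd_nonneg hW D B) hB x

lemma td_ge {W : V → V → ℝ} (hW : Ker W) (D : Finset V) (hD : 0 < D.card) (T : Tr) :
    ∀ x, (ms D) ^ T.sz * sd W D T x ≤ td W T x := by
  have hn : 0 < Fintype.card V := lt_of_lt_of_le hD (Finset.card_le_univ D)
  have hn' : (0 : ℝ) < (Fintype.card V : ℝ) := by exact_mod_cast hn
  have hD' : (0 : ℝ) < (D.card : ℝ) := by exact_mod_cast hD
  have hv : 0 ≤ ms D := div_nonneg (Nat.cast_nonneg _) (Nat.cast_nonneg _)
  induction T with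
  | pt => intro x; simp [sd, td, Tr.sz]
  | br A B hA hB =>
    intro x
    simp only [sd, td, Tr.sz]
    have h1 : (ms D) ^ (B.sz + 1) * ((∑ y ∈ D, W x y * sd W D B y) / (D.card : ℝ)) ≤
        (∑ y, W x y * td W B y) / (Fintype.card V : ℝ) := by
      have e1 : (ms D) ^ (B.sz + 1) * ((∑ y ∈ D, W x y * sd W D B y) / (D.card : ℝ)) =
          (∑ y ∈ D, W x y * ((ms D) ^ B.sz * sd W D B y)) / (Fintype.card V : ℝ) := by
        have e2 : ∑ y ∈ D, W x y * ((ms D) ^ B.sz * sd W D B y) =
            (ms D) ^ B.sz * ∑ y ∈ D, W x y * sd W D B y := by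
          rw [mul_sum]
          apply sum_congr rfl
          intro y _
          ring
        rw [e2, pow_succ]
        have : ms D = (D.card : ℝ) / (Fintype.card V : ℝ) := rfl
        conv_lhs => rw [show (ms D) ^ B.sz * ms D = (ms D) ^ B.sz * ((D.card : ℝ) / (Fintype.card V : ℝ)) from by rw [← this]]
        field_simp
      rw [e1]
      apply div_le_div_of_nonneg_right _ hn'.le
      calc ∑ y ∈ D, W x y * ((ms D) ^ B.sz * sd W D B y) ≤ ∑ y ∈ D, W x y * td W B y := by
            apply sum_le_sum
            intro y _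
            exact mul_le_mul_of_nonneg_left (hB y) (ker_nonneg hW x y)
        _ ≤ ∑ y, W x y * td W B y := by
            apply sum_le_sum_of_subset_of_nonneg (subset_univ D)
            intro y _ _
            exact mul_nonneg (ker_nonneg hW x y) (td_nonneg hW B y)
    have h2 : 0 ≤ (ms D) ^ (B.sz + 1) * ((∑ y ∈ D, W x y * sd W D B y) / (D.card : ℝ)) :=
      mul_nonneg (pow_nonneg hv _) (div_nonneg
        (sum_nonneg fun y _ => mul_nonneg (ker_nonneg hW x y) (sd_nonneg hW D B y))
        (Nat.cast_nonneg _))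
    calc (ms D) ^ (A.sz + B.sz + 1) *
          (sd W D A x * ((∑ y ∈ D, W x y * sd W D B y) / (D.card : ℝ)))
        = ((ms D) ^ A.sz * sd W D A x) *
          ((ms D) ^ (B.sz + 1) * ((∑ y ∈ D, W x y * sd W D B y) / (D.card : ℝ))) := by ring
      _ ≤ td W A x * ((∑ y, W x y * td W B y) / (Fintype.card V : ℝ)) :=
          mul_le_mul (hA x) h1 h2 (td_nonneg hW A x)

/-- mean over `D` of the other colour -/
noncomputable def be (W : V → V → ℝ) (D : Finset V) : ℝ :=
  (∑ x ∈ D, ∑ y ∈ D, co W x y) / (D.card : ℝ) ^ 2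

lemma defect {W : V → V → ℝ} (hW : Ker W) (D : Finset V) (hD : 0 < D.card) (T : Tr) :
    (∑ x ∈ D, (1 - sd W D T x)) ≤ (T.sz : ℝ) * be W D * (D.card : ℝ) := by
  have hD' : (0 : ℝ) < (D.card : ℝ) := by exact_mod_cast hD
  induction T with
  | pt => simp [sd, Tr.sz]
  | br A B hA hB =>
    have key : ∀ x ∈ D, 1 - sd W D (.br A B) x ≤ (1 - sd W D A x) +
        ((∑ y ∈ D, co W x y) / (D.card : ℝ) + (∑ y ∈ D, (1 - sd W D B y)) / (D.card : ℝ)) := by
      intro x _
      simp only [sd]
      have hX1 : (∑ y ∈ D, W x y * sd W D B y) / (D.card : ℝ) ≤ 1 :=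
        mean_le_one hW D _ (sd_nonneg hW D B) (sd_le_one hW D B) x
      have hA1 := sd_le_one hW D A x
      have hX2 : 1 - (∑ y ∈ D, W x y * sd W D B y) / (D.card : ℝ) ≤
          (∑ y ∈ D, co W x y) / (D.card : ℝ) + (∑ y ∈ D, (1 - sd W D B y)) / (D.card : ℝ) := by
        rw [← add_div, ← sum_add_distrib]
        rw [show (1 : ℝ) = (∑ y ∈ D, (1 : ℝ)) / (D.card : ℝ) from by
          rw [sum_const, nsmul_eq_mul, mul_one, div_self hD'.ne']]
        rw [← sub_div, ← sum_sub_distrib]
        apply div_le_div_of_nonneg_right _ hD'.le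
        apply sum_le_sum
        intro y _
        have h1 := ker_nonneg hW x y
        have h2 := ker_le_one hW x y
        have h3 := sd_nonneg hW D B y
        have h4 := sd_le_one hW D B y
        simp only [co]
        rw [show (∑ y ∈ D, (1 : ℝ)) / (D.card : ℝ) = 1 from by
          rw [sum_const, nsmul_eq_mul, mul_one, div_self hD'.ne']]
        nlinarith [mul_nonneg (sub_nonneg.mpr h2) (sub_nonneg.mpr h4)]
      nlinarith [mul_nonneg (sub_nonneg.mpr hA1) (sub_nonneg.mpr hX1)]
    calc ∑ x ∈ D, (1 - sd W D (.br A B) x)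
        ≤ ∑ x ∈ D, ((1 - sd W D A x) +
        ((∑ y ∈ D, co W x y) / (D.card : ℝ) + (∑ y ∈ D, (1 - sd W D B y)) / (D.card : ℝ))) :=
          sum_le_sum key
      _ = (∑ x ∈ D, (1 - sd W D A x)) + (∑ x ∈ D, ∑ y ∈ D, co W x y) / (D.card : ℝ) +
          (∑ y ∈ D, (1 - sd W D B y)) := by
          rw [sum_add_distrib, sum_add_distrib, sum_const, nsmul_eq_mul, ← sum_div]
          field_simp
          ring
      _ = (∑ x ∈ D, (1 - sd W D A x)) + be W D * (D.card : ℝ) +
          (∑ y ∈ D, (1 - sd W D B y)) := by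
          rw [be]
          congr 2
          field_simp
      _ ≤ (A.sz : ℝ) * be W D * (D.card : ℝ) + be W D * (D.card : ℝ) +
          (B.sz : ℝ) * be W D * (D.card : ℝ) := by
          linarith
      _ = ((Tr.br A B).sz : ℝ) * be W D * (D.card : ℝ) := by
          simp only [Tr.sz]
          push_cast
          ring

lemma one_sub_sum_le {k : ℕ} (a : Fin k → ℝ) (h0 : ∀ i, 0 ≤ a i) (h1 : ∀ i, a i ≤ 1) :
    1 - ∑ i, (1 - a i) ≤ ∏ i, a i := by
  induction k with
  | zero => simp
  | succ k ih =>
    rw [Fin.sum_univ_succ, Fin.prod_univ_succ]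
    have h := ih (fun i => a i.succ) (fun i => h0 _) (fun i => h1 _)
    have hp1 : ∏ i : Fin k, a i.succ ≤ 1 := prod_le_one (fun i _ => h0 _) (fun i _ => h1 _)
    have := h0 0
    have := h1 0
    nlinarith [mul_nonneg (sub_nonneg.mpr (h1 0)) (sub_nonneg.mpr hp1)]

open Classical in
lemma sum_two {k : ℕ} (D : Finset V) (i j : Fin k) (hij : i ≠ j) (g : V → V → ℝ) :
    (D.card : ℝ) ^ 2 * ∑ x ∈ Fintype.piFinset (fun _ : Fin k => D), g (x i) (x j) =
      (D.card : ℝ) ^ k * ∑ a ∈ D, ∑ b ∈ D, g a b := by
  have h1 : ∑ p ∈ (D ×ˢ D) ×ˢ Fintype.piFinset (fun _ : Fin k => D), g (p.2 i) (p.2 j) =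
      ∑ p ∈ (D ×ˢ D) ×ˢ Fintype.piFinset (fun _ : Fin k => D), g p.1.1 p.1.2 := by
    refine Finset.sum_nbij'
      (fun p => ((p.2 i, p.2 j), Function.update (Function.update p.2 i p.1.1) j p.1.2))
      (fun p => ((p.2 i, p.2 j), Function.update (Function.update p.2 i p.1.1) j p.1.2))
      ?_ ?_ ?_ ?_ ?_
    · intro p hp
      simp only [mem_product, Fintype.mem_piFinset] at hp ⊢
      refine ⟨⟨hp.2 i, hp.2 j⟩, ?_⟩
      intro l
      by_cases hl : l = j
      · subst hl; simp [hp.1.2]
      · rw [Function.update_of_ne hl]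
        by_cases hl' : l = i
        · subst hl'; simp [hp.1.1]
        · rw [Function.update_of_ne hl']; exact hp.2 l
    · intro p hp
      simp only [mem_product, Fintype.mem_piFinset] at hp ⊢
      refine ⟨⟨hp.2 i, hp.2 j⟩, ?_⟩
      intro l
      by_cases hl : l = j
      · subst hl; simp [hp.1.2]
      · rw [Function.update_of_ne hl]
        by_cases hl' : l = i
        · subst hl'; simp [hp.1.1]
        · rw [Function.update_of_ne hl']; exact hp.2 l
    · rintro ⟨⟨a, b⟩, x⟩ hp
      simp only [Function.update_self, Function.update_of_ne hij, Prod.mk.injEq, true_and]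
      funext l
      by_cases hl : l = j
      · subst hl; simp
      · rw [Function.update_of_ne hl]
        by_cases hl' : l = i
        · subst hl'; simp
        · rw [Function.update_of_ne hl', Function.update_of_ne hl, Function.update_of_ne hl']
    · rintro ⟨⟨a, b⟩, x⟩ hp
      simp only [Function.update_self, Function.update_of_ne hij, Prod.mk.injEq, true_and]
      funext l
      by_cases hl : l = j
      · subst hl; simp
      · rw [Function.update_of_ne hl]
        by_cases hl' : l = i
        · subst hl'; simp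
        · rw [Function.update_of_ne hl', Function.update_of_ne hl, Function.update_of_ne hl']
    · rintro ⟨⟨a, b⟩, x⟩ hp
      rfl
  rw [sum_product, sum_product, sum_product, sum_product] at h1
  simp only [sum_const, nsmul_eq_mul] at h1
  simp only [← mul_sum] at h1
  simp only [Fintype.card_piFinset, prod_const, card_univ, Fintype.card_fin] at h1
  push_cast at h1
  rw [← h1]
  ring

open Classical in
lemma sum_one {k : ℕ} (D : Finset V) (j : Fin k) (f : V → ℝ) :
    (D.card : ℝ) * ∑ x ∈ Fintype.piFinset (fun _ : Fin k => D), f (x j) =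
      (D.card : ℝ) ^ k * ∑ a ∈ D, f a := by
  have h1 : ∑ p ∈ D ×ˢ Fintype.piFinset (fun _ : Fin k => D), f (p.2 j) =
      ∑ p ∈ D ×ˢ Fintype.piFinset (fun _ : Fin k => D), f p.1 := by
    refine Finset.sum_nbij'
      (fun p => (p.2 j, Function.update p.2 j p.1))
      (fun p => (p.2 j, Function.update p.2 j p.1))
      ?_ ?_ ?_ ?_ ?_
    · intro p hp
      simp only [mem_product, Fintype.mem_piFinset] at hp ⊢
      refine ⟨hp.2 j, ?_⟩
      intro l
      by_cases hl : l = j
      · subst hl; simp [hp.1]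
      · rw [Function.update_of_ne hl]; exact hp.2 l
    · intro p hp
      simp only [mem_product, Fintype.mem_piFinset] at hp ⊢
      refine ⟨hp.2 j, ?_⟩
      intro l
      by_cases hl : l = j
      · subst hl; simp [hp.1]
      · rw [Function.update_of_ne hl]; exact hp.2 l
    · rintro ⟨a, x⟩ hp
      simp
    · rintro ⟨a, x⟩ hp
      simp
    · rintro ⟨a, x⟩ hp
      rfl
  rw [sum_product, sum_product] at h1
  simp only [sum_const, nsmul_eq_mul] at h1
  rw [← mul_sum] at h1
  simp only [Fintype.card_piFinset, prod_const, card_univ, Fintype.card_fin] at h1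
  push_cast at h1
  rw [← h1]

open Classical in
lemma cl_card {k : ℕ} {W : V → V → ℝ} (hW : Ker W) (D : Finset V) (hD : 0 < D.card) :
    (D.card : ℝ) ^ k * (1 - (k : ℝ) ^ 2 * be W D) ≤ ((cl W D k).card : ℝ) := by
  have hD' : (0 : ℝ) < (D.card : ℝ) := by exact_mod_cast hD
  have hbe : 0 ≤ be W D := by
    apply div_nonneg _ (by positivity)
    exact sum_nonneg fun x _ => sum_nonneg fun y _ => by
      simp only [co]; linarith [ker_le_one hW x y]
  have hcl : cl W D k = (Fintype.piFinset (fun _ : Fin k => D)).filter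
      (fun x => ∀ i j, i ≠ j → W (x i) (x j) = 1) := by
    ext x
    simp [cl, Fintype.mem_piFinset]
  have h1 : ((Fintype.piFinset (fun _ : Fin k => D)).card : ℝ) - ((cl W D k).card : ℝ) ≤
      ∑ x ∈ Fintype.piFinset (fun _ : Fin k => D),
        ∑ i : Fin k, ∑ j : Fin k, (if i ≠ j then co W (x i) (x j) else 0) := by
    rw [hcl, card_filter]
    push_cast
    rw [← mul_one ((Fintype.piFinset (fun _ : Fin k => D)).card : ℝ), ← nsmul_eq_mul, ← sum_const,
      ← sum_sub_distrib]
    apply sum_le_sum
    intro x _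
    have hnn : ∀ i j : Fin k, 0 ≤ (if i ≠ j then co W (x i) (x j) else 0) := by
      intro i j
      split_ifs
      · simp only [co]; linarith [ker_le_one hW (x i) (x j)]
      · exact le_rfl
    by_cases hx : ∀ i j, i ≠ j → W (x i) (x j) = 1
    · rw [if_pos hx]
      simp only [sub_self]
      exact sum_nonneg fun i _ => sum_nonneg fun j _ => hnn i j
    · rw [if_neg hx, sub_zero]
      push Not at hx
      obtain ⟨i, j, hij, hne⟩ := hx
      have hz : W (x i) (x j) = 0 := by
        rcases hW.zo (x i) (x j) with h | h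
        · exact h
        · exact absurd h hne
      calc (1 : ℝ) = (if i ≠ j then co W (x i) (x j) else 0) := by
            rw [if_pos hij]; simp [co, hz]
        _ ≤ ∑ j : Fin k, (if i ≠ j then co W (x i) (x j) else 0) :=
            single_le_sum (f := fun j => (if i ≠ j then co W (x i) (x j) else 0))
              (fun j _ => hnn i j) (mem_univ j)
        _ ≤ ∑ i : Fin k, ∑ j : Fin k, (if i ≠ j then co W (x i) (x j) else 0) :=
            single_le_sum (f := fun i => ∑ j : Fin k, (if i ≠ j then co W (x i) (x j) else 0))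
              (fun i _ => sum_nonneg fun j _ => hnn i j) (mem_univ i)
  have h2 : ∑ x ∈ Fintype.piFinset (fun _ : Fin k => D),
        ∑ i : Fin k, ∑ j : Fin k, (if i ≠ j then co W (x i) (x j) else 0) ≤
      (k : ℝ) ^ 2 * ((D.card : ℝ) ^ k * be W D) := by
    rw [sum_comm]
    calc ∑ i : Fin k, ∑ x ∈ Fintype.piFinset (fun _ : Fin k => D),
          ∑ j : Fin k, (if i ≠ j then co W (x i) (x j) else 0)
        ≤ ∑ i : Fin k, ∑ j : Fin k, ((D.card : ℝ) ^ k * be W D) := by
          apply sum_le_sum
          intro i _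
          rw [sum_comm]
          apply sum_le_sum
          intro j _
          by_cases hij : i = j
          · subst hij
            simp only [ne_eq, not_true_eq_false, if_false, sum_const_zero]
            positivity
          · simp only [ne_eq, hij, not_false_eq_true, if_true]
            have h3 := sum_two D i j hij (co W)
            have h4 : ∑ x ∈ Fintype.piFinset (fun _ : Fin k => D), co W (x i) (x j) =
                (D.card : ℝ) ^ k * be W D := by
              rw [be]
              field_simp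
              linarith
            exact h4.le
      _ = (k : ℝ) ^ 2 * ((D.card : ℝ) ^ k * be W D) := by
          simp only [sum_const, card_univ, Fintype.card_fin, nsmul_eq_mul]
          ring
  have h3 : ((Fintype.piFinset (fun _ : Fin k => D)).card : ℝ) = (D.card : ℝ) ^ k := by
    simp [Fintype.card_piFinset]
  rw [h3] at h1
  nlinarith [h1, h2]

open Classical in
/-- PART -/
theorem part : SPart := by
  intro k hk V _ W hW D T
  have hv0 : 0 ≤ ms D := div_nonneg (Nat.cast_nonneg _) (Nat.cast_nonneg _)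
  have hRn : 0 ≤ (∑ x ∈ cl W D k, ∏ i, td W (T i) (x i)) / (Fintype.card V : ℝ) ^ k :=
    div_nonneg (sum_nonneg fun x _ => prod_nonneg fun i _ => td_nonneg hW (T i) (x i))
      (by positivity)
  rcases Nat.eq_zero_or_pos D.card with hD | hD
  · have hms : ms D = 0 := by simp [ms, hD]
    have hDe : D = ∅ := Finset.card_eq_zero.mp hD
    have hee : ee (co W) D D = 0 := by simp [ee, hDe]
    rw [hms, hee, zero_pow (by omega)]
    simpa using hRn
  · have hn : 0 < Fintype.card V := lt_of_lt_of_le hD (Finset.card_le_univ D)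
    have hn' : (0 : ℝ) < (Fintype.card V : ℝ) := by exact_mod_cast hn
    have hD' : (0 : ℝ) < (D.card : ℝ) := by exact_mod_cast hD
    have hvpos : 0 < ms D := div_pos hD' hn'
    -- lower bound for the products
    have h1 : (ms D) ^ (tot T) * ∑ x ∈ cl W D k, (1 - ∑ j, (1 - sd W D (T j) (x j))) ≤
        ∑ x ∈ cl W D k, ∏ i, td W (T i) (x i) := by
      rw [mul_sum]
      apply sum_le_sum
      intro x _
      calc (ms D) ^ (tot T) * (1 - ∑ j, (1 - sd W D (T j) (x j)))
          ≤ (ms D) ^ (tot T) * ∏ j, sd W D (T j) (x j) :=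
            mul_le_mul_of_nonneg_left
              (one_sub_sum_le _ (fun j => sd_nonneg hW D _ _) (fun j => sd_le_one hW D _ _))
              (pow_nonneg hv0 _)
        _ = ∏ j, ((ms D) ^ (T j).sz * sd W D (T j) (x j)) := by
            rw [prod_mul_distrib, tot, prod_pow_eq_pow_sum]
        _ ≤ ∏ i, td W (T i) (x i) :=
            prod_le_prod (fun j _ => mul_nonneg (pow_nonneg hv0 _) (sd_nonneg hW D _ _))
              (fun j _ => td_ge hW D hD (T j) (x j))
    have hsub : cl W D k ⊆ Fintype.piFinset (fun _ : Fin k => D) := by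
      intro x hx
      simp only [cl, mem_filter] at hx
      exact Fintype.mem_piFinset.mpr hx.2.1
    have h2 : ((cl W D k).card : ℝ) - (D.card : ℝ) ^ k * ((tot T : ℝ) * be W D) ≤
        ∑ x ∈ cl W D k, (1 - ∑ j, (1 - sd W D (T j) (x j))) := by
      rw [sum_sub_distrib, sum_const, nsmul_eq_mul, mul_one]
      apply sub_le_sub_left
      calc ∑ x ∈ cl W D k, ∑ j, (1 - sd W D (T j) (x j))
          ≤ ∑ x ∈ Fintype.piFinset (fun _ : Fin k => D), ∑ j, (1 - sd W D (T j) (x j)) := by
            apply sum_le_sum_of_subset_of_nonneg hsub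
            intro x _ _
            exact sum_nonneg fun j _ => by linarith [sd_le_one hW D (T j) (x j)]
        _ = ∑ j, ∑ x ∈ Fintype.piFinset (fun _ : Fin k => D), (1 - sd W D (T j) (x j)) := sum_comm
        _ ≤ ∑ j, (D.card : ℝ) ^ k * (((T j).sz : ℝ) * be W D) := by
            apply sum_le_sum
            intro j _
            have h3 := sum_one D j (fun y => 1 - sd W D (T j) y)
            have h4 := defect hW D hD (T j)
            have h5 : (D.card : ℝ) * ∑ x ∈ Fintype.piFinset (fun _ : Fin k => D),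
                (1 - sd W D (T j) (x j)) ≤
                (D.card : ℝ) * ((D.card : ℝ) ^ k * (((T j).sz : ℝ) * be W D)) := by
              rw [h3]
              calc (D.card : ℝ) ^ k * ∑ a ∈ D, (1 - sd W D (T j) a)
                  ≤ (D.card : ℝ) ^ k * (((T j).sz : ℝ) * be W D * (D.card : ℝ)) :=
                    mul_le_mul_of_nonneg_left h4 (by positivity)
                _ = _ := by ring
            exact le_of_mul_le_mul_left h5 hD'
        _ = (D.card : ℝ) ^ k * ((tot T : ℝ) * be W D) := by
            rw [← mul_sum, ← sum_mul]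
            simp only [tot]
            push_cast
            rfl
    have h3 := cl_card (k := k) hW D hD
    have h4 : (ms D) ^ (tot T) * ((D.card : ℝ) ^ k * (1 - ((k : ℝ) ^ 2 + (tot T : ℝ)) * be W D)) ≤
        ∑ x ∈ cl W D k, ∏ i, td W (T i) (x i) := by
      refine le_trans ?_ h1
      apply mul_le_mul_of_nonneg_left _ (pow_nonneg hv0 _)
      nlinarith [h2, h3]
    rw [le_div_iff₀ (by positivity)]
    refine le_trans (le_of_eq ?_) h4
    have hms : ms D = (D.card : ℝ) / (Fintype.card V : ℝ) := rfl
    have hee : ee (co W) D D = be W D * (ms D) ^ 2 := by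
      rw [be, ee, hms, div_pow, div_mul_div_comm, mul_comm ((D.card : ℝ) ^ 2)]
      rw [mul_div_mul_right _ _ (pow_ne_zero 2 hD'.ne')]
    have hDn : (D.card : ℝ) = ms D * (Fintype.card V : ℝ) := by
      rw [hms, div_mul_cancel₀ _ hn'.ne']
    obtain ⟨q, hq⟩ : ∃ q, tot T + k = q + 2 := ⟨tot T + k - 2, by omega⟩
    have hq2 : tot T + k - 2 = q := by omega
    have hkk : (ms D) ^ (tot T) * (ms D) ^ k = (ms D) ^ (q + 2) := by rw [← pow_add, hq]
    rw [hee, hq2, hq]
    calc ((ms D) ^ (q + 2) - ((k : ℝ) ^ 2 + (tot T : ℝ)) * (be W D * (ms D) ^ 2) * (ms D) ^ q) *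
          (Fintype.card V : ℝ) ^ k
        = (ms D) ^ (q + 2) * (Fintype.card V : ℝ) ^ k *
          (1 - ((k : ℝ) ^ 2 + (tot T : ℝ)) * be W D) := by ring
      _ = (ms D) ^ (tot T) * (ms D) ^ k * (Fintype.card V : ℝ) ^ k *
          (1 - ((k : ℝ) ^ 2 + (tot T : ℝ)) * be W D) := by rw [hkk]
      _ = (ms D) ^ (tot T) * ((ms D * (Fintype.card V : ℝ)) ^ k *
          (1 - ((k : ℝ) ^ 2 + (tot T : ℝ)) * be W D)) := by ring
      _ = _ := by rw [← hDn]

end Pool.Agent.W604.LP
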